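import Pool.Agent.J4H20.LV.Stm

/-!
# Project LV: (CH), the choice of `c` and `M`
-/

set_option autoImplicit false

namespace Pool.Agent.J4H55.LV

open Polynomial NumberField nonZeroDivisors Pool.Agent.W289.CG Pool.Agent.J4H20.LV

theorem exists_inj (Pr : ℕ → ℕ → Prop) (h : ∀ j B, ∃ q, B < q ∧ Pr j q) (B₀ : ℕ) :
    ∃ u : ℕ → ℕ, Function.Injective u ∧ ∀ j, B₀ < u j ∧ Pr j (u j) := by
  choose F hF1 hF2 using h
  let u : ℕ → ℕ := fun j => Nat.rec (F 0 B₀) (fun j v => F (j + 1) v) j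
  have hu : ∀ j, u (j + 1) = F (j + 1) (u j) := fun j => rfl
  have hmono : StrictMono u := strictMono_nat_of_lt_succ (fun j => by rw [hu]; exact hF1 _ _)
  refine ⟨u, hmono.injective, ?_⟩
  intro j
  constructor
  · exact lt_of_lt_of_le (hF1 0 B₀) (hmono.monotone (Nat.zero_le j))
  · cases j with
    | zero => exact hF2 0 B₀
    | succ j => rw [hu]; exact hF2 _ _

theorem not_dvd_of_lt {q : ℕ} {z : ℤ} (hz : z ≠ 0) (h : z.natAbs < q) : ¬ (q : ℤ) ∣ z := by
  intro hd
  have h1 := Int.natCast_dvd.1 hd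
  have := Nat.le_of_dvd (Int.natAbs_pos.2 hz) h1
  omega

/-- a point of a large set where `h` and `m f h' - f' h` are not zero -/
theorem exists_point {q m e j k : ℕ} [Fact q.Prime] (a : Fin (k + 2) → ℤ) (h : ℤ[X])
    (hh : h.Monic) (hhn : h.natDegree = j) (hm : 2 ≤ m) (hje : j < e) (hk : k + 2 = m * e)
    (hq : k + 2 < q) (S : Finset (ZMod q)) (hS : k + 1 + j + j < S.card) : ∃ x ∈ S,
      (h.map (Int.castRingHom (ZMod q))).eval x ≠ 0 ∧
      ((C (m : ℤ) * (∏ i, (X - C (a i))) * derivative h -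
        derivative (∏ i, (X - C (a i))) * h).map (Int.castRingHom (ZMod q))).eval x ≠ 0 := by
  classical
  by_contra hcon
  push Not at hcon
  set f : ℤ[X] := ∏ i, (X - C (a i)) with hfdef
  have hfm : f.Monic := monic_prod_X_sub_C _ _
  have hfd : f.natDegree = k + 2 := by
    rw [hfdef, natDegree_finsetProd_X_sub_C_eq_card, Finset.card_univ, Fintype.card_fin]
  set G : ℤ[X] := C (m : ℤ) * f * derivative h - derivative f * h with hG
  -- the coefficient
  have hc1 : (derivative f * h).coeff (k + 1 + j) = (k + 2 : ℕ) := by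
    rw [coeff_mul_add_eq_of_natDegree_le (df := k + 1) (dg := j)
      ((natDegree_derivative_le _).trans (by omega)) hhn.le, coeff_derivative]
    have h1 : f.coeff (k + 1 + 1) = 1 := by
      have := hfm.coeff_natDegree
      rwa [hfd] at this
    have h2 : h.coeff j = 1 := by
      have := hh.coeff_natDegree
      rwa [hhn] at this
    rw [h1, h2]
    push_cast
    ring
  have hc2 : (f * derivative h).coeff (k + 1 + j) = (j : ℕ) := by
    rcases Nat.eq_zero_or_pos j with h0 | h0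
    · have h1 : h = 1 := by
        apply hh.natDegree_eq_zero.1
        omega
      rw [h1, h0]
      simp
    · obtain ⟨j', rfl⟩ : ∃ j', j = j' + 1 := ⟨j - 1, by omega⟩
      have h3 : k + 1 + (j' + 1) = (k + 2) + j' := by ring
      rw [h3, coeff_mul_add_eq_of_natDegree_le (df := k + 2) (dg := j') hfd.le
        ((natDegree_derivative_le _).trans (by omega)), coeff_derivative]
      have h1 : f.coeff (k + 2) = 1 := by
        have := hfm.coeff_natDegree
        rwa [hfd] at this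
      have h2 : h.coeff (j' + 1) = 1 := by
        have := hh.coeff_natDegree
        rwa [hhn] at this
      rw [h1, h2]
      push_cast
      ring
  have hc : G.coeff (k + 1 + j) = -((m * (e - j) : ℕ) : ℤ) := by
    rw [hG, coeff_sub, hc1, mul_assoc, coeff_C_mul, hc2, hk]
    have : ((e - j : ℕ) : ℤ) = (e : ℤ) - j := by
      rw [Nat.cast_sub hje.le]
    push_cast [this]
    ring
  have hGd : G.natDegree ≤ k + 1 + j := by
    refine (natDegree_sub_le _ _).trans (max_le ?_ ?_)
    · rcases Nat.eq_zero_or_pos j with h0 | h0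
      · have h1 : h = 1 := by
          apply hh.natDegree_eq_zero.1
          omega
        rw [h1]
        simp
      · refine natDegree_mul_le.trans ?_
        have h1 : (C (m : ℤ) * f).natDegree ≤ k + 2 := (natDegree_C_mul_le _ _).trans hfd.le
        have h2 : (derivative h).natDegree ≤ j - 1 := (natDegree_derivative_le _).trans (by omega)
        omega
    · refine natDegree_mul_le.trans ?_
      have h1 : (derivative f).natDegree ≤ k + 1 := (natDegree_derivative_le _).trans (by omega)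
      omega
  have hGq : (G.map (Int.castRingHom (ZMod q))) ≠ 0 := by
    intro h0
    have h1 : (G.map (Int.castRingHom (ZMod q))).coeff (k + 1 + j) = 0 := by
      rw [h0, coeff_zero]
    rw [coeff_map, hc, map_neg, neg_eq_zero] at h1
    have h2 : ((m * (e - j) : ℕ) : ZMod q) = 0 := by
      simpa using h1
    have h3 := (ZMod.natCast_eq_zero_iff _ _).1 h2
    have h4 : 0 < m * (e - j) := Nat.mul_pos (by omega) (by omega)
    have h5 := Nat.le_of_dvd h4 h3
    have h6 : m * (e - j) ≤ m * e := Nat.mul_le_mul_left _ (Nat.sub_le _ _)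
    omega
  have hhq : (h.map (Int.castRingHom (ZMod q))) ≠ 0 := (hh.map _).ne_zero
  have hprod : (h.map (Int.castRingHom (ZMod q))) * (G.map (Int.castRingHom (ZMod q))) ≠ 0 :=
    mul_ne_zero hhq hGq
  have h1 : S ⊆ ((h.map (Int.castRingHom (ZMod q))) *
      (G.map (Int.castRingHom (ZMod q)))).roots.toFinset := by
    intro x hx
    rw [Multiset.mem_toFinset, mem_roots hprod, IsRoot.def, eval_mul]
    by_cases h : (h.map (Int.castRingHom (ZMod q))).eval x = 0
    · rw [h, zero_mul]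
    · rw [hcon x hx h, mul_zero]
  have h2 : S.card ≤ ((h.map (Int.castRingHom (ZMod q))) *
      (G.map (Int.castRingHom (ZMod q)))).natDegree :=
    (Finset.card_le_card h1).trans ((Multiset.toFinset_card_le _).trans (card_roots' _))
  have h3 : ((h.map (Int.castRingHom (ZMod q))) *
      (G.map (Int.castRingHom (ZMod q)))).natDegree ≤ j + (k + 1 + j) :=
    natDegree_mul_le.trans (add_le_add ((natDegree_map_le).trans hhn.le)
      ((natDegree_map_le).trans hGd))
  omega

theorem t_CH : S_T1 → S_T2 → S_T3 → S_T4 → S_CH := by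
  classical
  intro hT1 hT2 hT3 hT4 m e j k D α β N hα hαβ
  have hTp := D.hT
  -- the product of the differences
  set M₀ : ℤ := ∏ i, ∏ j, (if i = j then 1 else D.a i - D.a j) with hM₀
  have hM₀0 : M₀ ≠ 0 := by
    rw [hM₀]
    refine Finset.prod_ne_zero_iff.2 (fun i _ => Finset.prod_ne_zero_iff.2 (fun j _ => ?_))
    split_ifs with h
    · exact one_ne_zero
    · exact sub_ne_zero.2 (fun he => h (D.ha he))
  have hdvd : ∀ i j, i ≠ j → D.a i - D.a j ∣ M₀ := by
    intro i j hij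
    have h1 : (∏ j, (if i = j then 1 else D.a i - D.a j)) ∣ M₀ :=
      Finset.dvd_prod_of_mem _ (Finset.mem_univ i)
    have h2 : (if i = j then 1 else D.a i - D.a j) ∣ ∏ j, (if i = j then 1 else D.a i - D.a j) :=
      Finset.dvd_prod_of_mem (fun j => (if i = j then 1 else D.a i - D.a j)) (Finset.mem_univ j)
    rw [if_neg hij] at h2
    exact h2.trans h1
  -- the primes of `2 M₀`
  have hprime : ∀ q : ℕ, q.Prime → (q : ℤ) ∣ 2 * M₀ →
      q = 2 ∨ ∃ i i', i ≠ i' ∧ (q : ℤ) ∣ D.a i - D.a i' := by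
    intro q hq hd
    have hqi : Prime (q : ℤ) := Nat.prime_iff_prime_int.1 hq
    rcases hqi.dvd_or_dvd hd with h | h
    · left
      have h' : q ∣ 2 := by exact_mod_cast h
      exact (Nat.prime_dvd_prime_iff_eq hq Nat.prime_two).1 h'
    · right
      rw [hM₀] at h
      obtain ⟨i, _, hi⟩ := (Prime.dvd_finsetProd_iff hqi _).1 h
      obtain ⟨i', _, hi'⟩ := (Prime.dvd_finsetProd_iff hqi _).1 hi
      split_ifs at hi' with hii
      · exact absurd hi' hqi.not_dvd_one
      · exact ⟨i, i', hii, hi'⟩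
  have hTM : ¬ (D.T : ℤ) ∣ 2 * M₀ := by
    intro hd
    rcases hprime D.T hTp hd with h | ⟨i, i', hii, h⟩
    · exact D.hT2 h
    · exact D.hTa i i' hii h
  have h2M₀ : (2 * M₀) ≠ 0 := mul_ne_zero two_ne_zero hM₀0
  -- the values `h (a i)`
  have hh0 : ∀ i, D.h.eval (D.a i) ≠ 0 := by
    intro i h0
    apply D.hco i 2 Nat.prime_two (Or.inl rfl)
    rw [h0]
    exact dvd_zero _
  obtain ⟨q₀, hq₀1, hq₀⟩ := Nat.exists_infinite_primes
    (N + (2 * M₀).natAbs + m + D.T + (∑ i, (D.h.eval (D.a i)).natAbs) + 1)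
  have hhlt : ∀ i, (D.h.eval (D.a i)).natAbs < q₀ := by
    intro i
    have h1 : (D.h.eval (D.a i)).natAbs ≤ ∑ i, (D.h.eval (D.a i)).natAbs :=
      Finset.single_le_sum (f := fun i => (D.h.eval (D.a i)).natAbs)
        (fun i _ => Nat.zero_le _) (Finset.mem_univ i)
    omega
  obtain ⟨B3, hB3⟩ := hT3 m e j k D
  -- the property of a prime
  let R : (q : ℕ) → ℤ → ZMod q → Prop := fun q x s => ∀ c M : ℤ, ¬ (q : ℤ) ∣ M →
    (c : ZMod q) = s * (M : ZMod q) → (q : ℤ) ∣ (HL m D.g D.r D.h c M).eval x ∧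
      ¬ (q : ℤ) ∣ (derivative (HL m D.g D.r D.h c M)).eval x
  let Pr : ℕ → ℕ → Prop := fun l q => q.Prime ∧ ∃ (x : ℤ) (s : ZMod q), R q x s ∧
    (∀ i : Fin k, (i : ℕ) = l → 4 ∣ q - 1 ∧ (∀ t, ((x - D.a t : ℤ) : ZMod q) ≠ 0) ∧
      (∀ t, t ≠ i.castSucc.castSucc → t ≠ (Fin.last k).castSucc →
        ∃ y : ZMod q, ((x - D.a t : ℤ) : ZMod q) = y ^ m) ∧
      ∀ ℓ : ℕ, ℓ.Prime → ℓ ∣ m → ¬ ∃ y : ZMod q, ((x - D.a i.castSucc.castSucc : ℤ) : ZMod q) = y ^ ℓ) ∧
    (k ≤ l → 4 * m ∣ q + 1)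
  have hPr : ∀ l C, ∃ q, C < q ∧ Pr l q := by
    intro l C₀
    by_cases h : l < k
    · have huv : (⟨l, h⟩ : Fin k).castSucc.castSucc ≠ (Fin.last k).castSucc := by
        intro he
        have := congrArg Fin.val he
        simp at this
        omega
      obtain ⟨q, hq, hqC, hqp, S, hS, hSx⟩ := hT1 m (k + 2) D.a _ _ (k + 1 + j + j)
        (C₀ + B3 + k + 2) D.hm D.ha huv
      have : Fact q.Prime := ⟨hq⟩
      have : NeZero q := ⟨hq.ne_zero⟩
      have hje := D.hje
      obtain ⟨z, hz, hzh, hzF⟩ := exists_point D.a D.h D.hh D.hhn D.hm (by omega : j < e) D.hk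
        (by omega : k + 2 < q) S hS
      obtain ⟨h1, h2, ⟨y, h3⟩, h4⟩ := hSx z hz
      have hcast : ((z.val : ℤ) : ZMod q) = z := by
        rw [Int.cast_natCast, ZMod.natCast_zmod_val]
      have hsub : ∀ t, (((z.val : ℤ) - D.a t : ℤ) : ZMod q) = z - (D.a t : ZMod q) := by
        intro t
        rw [Int.cast_sub, hcast]
      have hne : ∀ t, (((z.val : ℤ) - D.a t : ℤ) : ZMod q) ≠ 0 := by
        intro t
        rw [hsub t]
        exact sub_ne_zero.2 (h1 t)
      have hpow : ∀ t, t ≠ (⟨l, h⟩ : Fin k).castSucc.castSucc → t ≠ (Fin.last k).castSucc →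
          ∃ y : ZMod q, (((z.val : ℤ) - D.a t : ℤ) : ZMod q) = y ^ m := by
        intro t ht1 ht2
        rw [hsub t]
        exact h2 t ht1 ht2
      have hprod : ∃ y : ZMod q, ∏ t, (((z.val : ℤ) - D.a t : ℤ) : ZMod q) = y ^ m := by
        have h5 : ∀ t, ∃ y : ZMod q, t ≠ (⟨l, h⟩ : Fin k).castSucc.castSucc →
            t ≠ (Fin.last k).castSucc → (((z.val : ℤ) - D.a t : ℤ) : ZMod q) = y ^ m := by
          intro t
          by_cases ht1 : t = (⟨l, h⟩ : Fin k).castSucc.castSucc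
          · exact ⟨0, fun h' => absurd ht1 h'⟩
          · by_cases ht2 : t = (Fin.last k).castSucc
            · exact ⟨0, fun _ h' => absurd ht2 h'⟩
            · obtain ⟨y, hy⟩ := hpow t ht1 ht2
              exact ⟨y, fun _ _ => hy⟩
        choose w hw using h5
        set u0 := (⟨l, h⟩ : Fin k).castSucc.castSucc with hu0
        set v0 := (Fin.last k).castSucc with hv0
        refine ⟨y * ∏ t ∈ (Finset.univ.erase u0).erase v0, w t, ?_⟩
        rw [← Finset.mul_prod_erase _ _ (Finset.mem_univ u0),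
          ← Finset.mul_prod_erase (Finset.univ.erase u0) _
            (Finset.mem_erase.2 ⟨huv.symm, Finset.mem_univ v0⟩), ← mul_assoc, hsub, hsub, h3,
          mul_pow, ← Finset.prod_pow]
        congr 1
        refine Finset.prod_congr rfl (fun t ht => ?_)
        have ht1 := Finset.mem_erase.1 ht
        have ht2 := Finset.mem_erase.1 ht1.2
        exact hw t ht2.1 ht1.1
      obtain ⟨s, hs⟩ := hB3 q (z.val : ℤ) (by omega) ((Dvd.intro_left 4 rfl).trans hqp)
        (Finset.prod_ne_zero_iff.2 (fun t _ => hne t)) (by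
          have := hzh
          rw [← hcast, eval_intCast_map] at this
          simpa using this) (by
          have := hzF
          rw [← hcast, eval_intCast_map] at this
          simpa using this) hprod
      refine ⟨q, by omega, hq, (z.val : ℤ), s, hs, ?_, fun h5 => by omega⟩
      intro i hi
      have : i = ⟨l, h⟩ := Fin.ext hi
      subst this
      refine ⟨(Dvd.intro m rfl).trans hqp, hne, hpow, ?_⟩
      rintro ℓ hℓ hℓm ⟨y, hy⟩
      exact h4 ℓ hℓ hℓm ⟨y, by rw [← hsub]; exact hy⟩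
    · obtain ⟨q, x, s, hq, hqC, hqp, hs⟩ := hT2 m e j k D C₀
      refine ⟨q, hqC, hq, x, s, hs, fun i hi => ?_, fun _ => hqp⟩
      exact absurd (hi ▸ i.2) h
  obtain ⟨u, huinj, hu⟩ := exists_inj Pr hPr (q₀ + (2 * M₀).natAbs + D.T)
  have hu' : ∀ l, ∃ (x : ℤ) (s : ZMod (u l)), R (u l) x s ∧
    (∀ i : Fin k, (i : ℕ) = l → 4 ∣ u l - 1 ∧ (∀ t, ((x - D.a t : ℤ) : ZMod (u l)) ≠ 0) ∧
      (∀ t, t ≠ i.castSucc.castSucc → t ≠ (Fin.last k).castSucc →
        ∃ y : ZMod (u l), ((x - D.a t : ℤ) : ZMod (u l)) = y ^ m) ∧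
      ∀ ℓ : ℕ, ℓ.Prime → ℓ ∣ m →
        ¬ ∃ y : ZMod (u l), ((x - D.a i.castSucc.castSucc : ℤ) : ZMod (u l)) = y ^ ℓ) ∧
    (k ≤ l → 4 * m ∣ u l + 1) := fun l => (hu l).2.2
  choose X s₀ hX1 hX2 hX3 using hu'
  have huT : ∀ l, u l ≠ D.T ^ 2 := by
    intro l hl
    have h1 := (hu l).2.1
    rw [hl] at h1
    exact Nat.Prime.not_prime_pow le_rfl h1
  have hs : ∀ q : ℕ, ∃ s : ZMod q, (∀ l, u l = q → R q (X l) s) ∧ (q = D.T ^ 2 → s = (D.s : ℤ)) := by
    intro q
    by_cases h : ∃ l, u l = q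
    · obtain ⟨l, rfl⟩ := h
      refine ⟨s₀ l, ?_, fun h => absurd h (huT l)⟩
      intro l' hl'
      rw [huinj hl']
      exact hX1 l
    · exact ⟨(D.s : ℤ), fun l hl => absurd ⟨l, hl⟩ h, fun _ => rfl⟩
  choose s hs hsT using hs
  have hTq₀ : D.T ≠ q₀ := by omega
  obtain ⟨c, M, hc, hM, hcop, hM₀M, hq₀M, hq₀M2, hpr, hαc, hβc, hL⟩ :=
    hT4 M₀ q₀ (insert (D.T ^ 2) ((Finset.range (k + 1)).image u)) s α β hM₀0 hq₀
      (not_dvd_of_lt h2M₀ (by omega)) (by
        intro q hq
        rcases Finset.mem_insert.1 hq with rfl | hq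
        · refine ⟨Nat.one_lt_pow two_ne_zero hTp.one_lt, ?_⟩
          push_cast
          apply IsCoprime.pow_left
          apply IsCoprime.mul_right
          · exact (Nat.prime_iff_prime_int.1 hTp).coprime_iff_not_dvd.2 hTM
          · rw [Nat.isCoprime_iff_coprime]
            exact (Nat.coprime_primes hTp hq₀).2 hTq₀
        · obtain ⟨l, hl, rfl⟩ := Finset.mem_image.1 hq
          have h1 := (hu l).1
          refine ⟨(hu l).2.1.one_lt, ?_⟩
          apply IsCoprime.mul_right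
          · exact (Nat.prime_iff_prime_int.1 (hu l).2.1).coprime_iff_not_dvd.2
              (not_dvd_of_lt h2M₀ (by omega))
          · rw [Nat.isCoprime_iff_coprime]
            exact (Nat.coprime_primes (hu l).2.1 hq₀).2 (by omega)) (by
        have hTu : ∀ l, Nat.Coprime (D.T ^ 2) (u l) := by
          intro l
          apply Nat.Coprime.pow_left
          have h1 := (hu l).1
          exact (Nat.coprime_primes hTp (hu l).2.1).2 (by omega)
        intro q hq q' hq' hqq
        rcases Finset.mem_insert.1 hq with rfl | hq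
        · rcases Finset.mem_insert.1 hq' with rfl | hq'
          · exact absurd rfl hqq
          · obtain ⟨l, hl, rfl⟩ := Finset.mem_image.1 hq'
            exact hTu l
        · obtain ⟨l, hl, rfl⟩ := Finset.mem_image.1 hq
          rcases Finset.mem_insert.1 hq' with rfl | hq'
          · exact (hTu l).symm
          · obtain ⟨l', hl', rfl⟩ := Finset.mem_image.1 hq'
            exact (Nat.coprime_primes (hu l).2.1 (hu l').2.1).2 hqq) hα hαβ
  have hroot : ∀ l, l ≤ k → ((u l : ℕ) : ℤ) ∣ (HL m D.g D.r D.h c M).eval (X l) ∧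
        ¬ ((u l : ℕ) : ℤ) ∣ (derivative (HL m D.g D.r D.h c M)).eval (X l) := by
    intro l hl
    obtain ⟨h1, h2⟩ := hL (u l) (Finset.mem_insert_of_mem
      (Finset.mem_image.2 ⟨l, Finset.mem_range.2 (by omega), rfl⟩))
    refine hs (u l) l rfl c M ?_ h2
    exact (Nat.prime_iff_prime_int.1 (hu l).2.1).coprime_iff_not_dvd.1 h1
  obtain ⟨hT1', hT2'⟩ := hL (D.T ^ 2) (Finset.mem_insert_self _ _)
  refine ⟨c, M, q₀, hc, hM, hcop, fun i j hij => (hdvd i j hij).trans hM₀M, ?_, ?_, ?_, hq₀,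
    by omega, hq₀M, hq₀M2, ?_, hαc, hβc, ?_, ?_⟩
  · intro i
    by_contra hcon
    rw [Int.isCoprime_iff_gcd_eq_one] at hcon
    obtain ⟨p, hp, hpd⟩ := Nat.exists_prime_and_dvd hcon
    have hp1 : (p : ℤ) ∣ D.h.eval (D.a i) := (Int.natCast_dvd_natCast.2 hpd).trans (Int.gcd_dvd_left ..)
    have hp2 : (p : ℤ) ∣ M := (Int.natCast_dvd_natCast.2 hpd).trans (Int.gcd_dvd_right ..)
    rcases hpr p hp hp2 with rfl | h
    · exact not_dvd_of_lt (hh0 i) (hhlt i) hp1
    · exact D.hco i p hp (hprime p hp h) hp1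
  · intro hd
    rw [Nat.cast_pow] at hT1'
    have h1 : IsCoprime (D.T : ℤ) M := (IsCoprime.pow_left_iff (by norm_num)).1 hT1'
    exact (Nat.prime_iff_prime_int.1 hTp).coprime_iff_not_dvd.1 h1 hd
  · rw [hsT _ rfl] at hT2'
    have h1 : ((D.s * M : ℤ) : ZMod (D.T ^ 2)) = (c : ZMod (D.T ^ 2)) := by
      rw [hT2']
      push_cast
      rfl
    have h2 := (ZMod.intCast_eq_intCast_iff_dvd_sub _ _ _).1 h1
    simpa using h2
  · intro hd
    have := Nat.le_of_dvd (by have := D.hm; omega) hd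
    omega
  · intro i
    obtain ⟨h2, h3, h4, h5⟩ := hX2 i i rfl
    exact ⟨u i, X i, (hu i).2.1, h2, (hroot i i.2.le).1, (hroot i i.2.le).2, h3, h4, h5⟩
  · exact ⟨u k, X k, (hu k).2.1, hX3 k le_rfl, (hroot k le_rfl).1, (hroot k le_rfl).2⟩

end Pool.Agent.J4H55.LV
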